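import Pool.Agent.helper75.S6D.Spec

/-!
# Row BDC of project s6
-/

set_option autoImplicit false

open Polynomial Finset

noncomputable section

namespace Pool.Agent.S6D

open Pool.Agent.PSA

theorem BDC : BDC_stmt := by
  intro A b c u v L hu hv hL hA hR
  obtain ⟨hA1, hb1, hc1⟩ := hR
  have hA0 : (1 : ℝ) ≤ (A : ℝ) := by exact_mod_cast hA
  have hu1 := abs_le.1 hu
  have hv1 := abs_le.1 hv
  obtain ⟨hu1, hu2⟩ := hu1
  obtain ⟨hv1, hv2⟩ := hv1
  refine ⟨?_, ?_, ?_, ?_⟩
  · have h1 : |(b : ℝ)| ≤ 4 * A + 20 := by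
      rw [hb1, abs_neg]
      have h2 : |u * v| ≤ 4 := by
        rw [abs_mul]
        nlinarith [abs_nonneg u, abs_nonneg v]
      have h3 : |u + v| ≤ 4 := (abs_add_le u v).trans (by linarith)
      have h4 : |L * (u + v)| ≤ L * 4 := by
        rw [abs_mul, abs_of_nonneg (by linarith : (0 : ℝ) ≤ L)]
        exact mul_le_mul_of_nonneg_left h3 (by linarith)
      have h5 := abs_add_le (u * v) (L * (u + v))
      linarith
    exact_mod_cast h1
  · have h1 : (8 : ℝ) - 2 * A - 2 * b ≤ c := by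
      have h2 : 0 ≤ (2 - u) * (2 - v) := mul_nonneg (by linarith) (by linarith)
      have h3 : 0 ≤ (2 - u) * (2 - v) * (L - 2) := mul_nonneg h2 (by linarith)
      rw [hb1, hc1, hA1]
      nlinarith [h3]
    exact_mod_cast h1
  · have h1 : (-8 : ℝ) - 2 * A + 2 * b ≤ c := by
      have h2 : 0 ≤ (2 + u) * (2 + v) := mul_nonneg (by linarith) (by linarith)
      have h3 : 0 ≤ (2 + u) * (2 + v) * (L + 2) := mul_nonneg h2 (by linarith)
      rw [hb1, hc1, hA1]
      nlinarith [h3]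
    exact_mod_cast h1
  · have hApos : (0 : ℝ) < A := by linarith
    have h1 : (c : ℝ) = u ^ 3 - A * u ^ 2 - b * u + 2 * A := by
      rw [hb1, hc1]
      have h2 : L = A - u - v := by linarith
      rw [h2]
      ring
    have h2 : u ^ 3 ≤ 8 := by
      nlinarith [sq_nonneg u, sq_nonneg (u + 2), mul_nonneg (by linarith : (0 : ℝ) ≤ 2 - u) (sq_nonneg (u + 1))]
    have h3 : 0 ≤ (A : ℝ) * u ^ 2 + b * u + (b : ℝ) ^ 2 / (4 * A) := by
      have h4 : (A : ℝ) * u ^ 2 + b * u + (b : ℝ) ^ 2 / (4 * A) = A * (u + b / (2 * A)) ^ 2 := by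
        field_simp
        ring
      rw [h4]
      positivity
    linarith

end Pool.Agent.S6D
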