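import Pool.Agent.helper75.S6D.Spec

/-!
# Row LW6 of project s6: the lower bound
-/

set_option autoImplicit false

open Polynomial Finset

noncomputable section

namespace Pool.Agent.S6D

open Pool.Agent.PSA

/-- the polynomial determines the coefficients -/
theorem LW6_inj (hP6C : P6C_stmt) (A b c A' b' c' : ℤ) (h : P6 A b c = P6 A' b' c') :
    A = A' ∧ b = b' ∧ c = c' := by
  obtain ⟨-, -, h5, h4, h3, -⟩ := hP6C A b c
  obtain ⟨-, -, h5', h4', h3', -⟩ := hP6C A' b' c'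
  rw [h] at h5 h4 h3
  refine ⟨by linarith, by linarith, by linarith⟩

theorem LW6_abs (A : ℕ) (hA : 1 ≤ A) (b : ℤ) (h : |(b : ℝ) / A| ≤ 4) : |b| ≤ 4 * A := by
  have hA0 : (0 : ℝ) < A := by exact_mod_cast hA
  rw [abs_div, abs_of_pos hA0, div_le_iff₀ hA0] at h
  exact_mod_cast h

open Classical in
/-- the points without integer roots -/
theorem LW6_col (hLOC : LOC_stmt) (hEXC : EXC_stmt) (α η : ℝ) (Q : ℝ → ℝ → Prop) (hη : 0 < η)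
    (h : LB (fun x y => InW η x y ∧ Q x y) α) : ∃ (K : ℝ) (A₁ : ℕ), ∀ A : ℕ, A₁ ≤ A → 1 ≤ A →
      ∃ G : Finset (ℤ × ℤ), (∀ z ∈ G, (InW η ((z.1 : ℝ) / A) ((z.2 : ℝ) / A) ∧ Q ((z.1 : ℝ) / A) ((z.2 : ℝ) / A)) ∧
        NoInt A z.1 z.2) ∧ α * (A : ℝ) ^ 2 - K * A ≤ (G.card : ℝ) := by
  obtain ⟨K, hK⟩ := h
  obtain ⟨A₀, hA₀⟩ := hLOC η hη
  refine ⟨K + 108, ⌈A₀⌉₊, fun A hA1 hA => ?_⟩
  obtain ⟨F, hF, hc⟩ := hK A hA
  refine ⟨F.filter (fun z => NoInt A z.1 z.2), ?_, ?_⟩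
  · intro z hz
    rw [Finset.mem_filter] at hz
    exact ⟨hF z hz.1, hz.2⟩
  · have h1 := hEXC A hA F (fun z hz => ⟨LW6_abs A hA z.1 (hF z hz).1.1, by
      have hA2 : A₀ ≤ ((A : ℤ) : ℝ) := by
        have h3 := Nat.le_ceil A₀
        have h4 : ((⌈A₀⌉₊ : ℕ) : ℝ) ≤ (A : ℝ) := by exact_mod_cast hA1
        push_cast
        linarith
      obtain ⟨u, v, L, h5, h6, h7, -⟩ := hA₀ (A : ℤ) z.1 z.2 hA2 (by
        have h8 := (hF z hz).1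
        push_cast
        exact h8)
      exact ⟨u, v, L, h5, h6, h7⟩⟩)
    have h2 : ((F.filter (fun z => NoInt A z.1 z.2)).card : ℝ) +
        ((F.filter (fun z => ¬ NoInt A z.1 z.2)).card : ℝ) = (F.card : ℝ) := by
      exact_mod_cast Finset.card_filter_add_card_filter_not (s := F) (fun z => NoInt A z.1 z.2)
    have h9 : (0 : ℝ) ≤ A := Nat.cast_nonneg A
    nlinarith

theorem LW6_arith (α K X : ℝ) (M : ℝ) (hα : 0 ≤ α) (hX : 5 ≤ X) (hM1 : X - 5 ≤ M) (hM2 : M ≤ X) :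
    α / 3 * X ^ 3 - (5 * α + |K|) * X ^ 2 ≤ α / 3 * M ^ 3 - K * M ^ 2 := by
  have h1 : X ^ 3 - 15 * X ^ 2 ≤ M ^ 3 := by
    have h2 : (X - 5) ^ 3 ≤ M ^ 3 := pow_le_pow_left₀ (by linarith) hM1 3
    nlinarith
  have h3 : α / 3 * (X ^ 3 - 15 * X ^ 2) ≤ α / 3 * M ^ 3 := mul_le_mul_of_nonneg_left h1 (by positivity)
  have h4 : M ^ 2 ≤ X ^ 2 := pow_le_pow_left₀ (by linarith) hM2 2
  have h5 : K * M ^ 2 ≤ |K| * X ^ 2 :=
    mul_le_mul (le_abs_self K) h4 (sq_nonneg _) (abs_nonneg _)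
  nlinarith

theorem LW6 (hGOD : GOD_stmt) (hLOC : LOC_stmt) (hEXC : EXC_stmt) (hSUL : SUL_stmt) (hP6C : P6C_stmt) :
    LW6_stmt := by
  classical
  intro α η Tm hα hη hη1 hLB
  obtain ⟨K, A₁, hcol⟩ := LW6_col hLOC hEXC α η (fun x y => ∃ T : ℕ, T ≤ Tm ∧ Cell η T x y) hη hLB
  obtain ⟨A₀, hG⟩ := hGOD η Tm hη hη1
  choose! G hGm hGc using hcol
  have hex : ∀ A b c : ℤ, ((A₀ : ℤ) ≤ A ∧ InW η ((b : ℝ) / A) ((c : ℝ) / A) ∧
      (∃ T : ℕ, T ≤ Tm ∧ Cell η T ((b : ℝ) / A) ((c : ℝ) / A)) ∧ NoInt A b c) →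
      ∃ Λ : ℝ, IsSalem Λ ∧ Λ ≤ A + 4 ∧ minpoly ℤ Λ = P6 A b c ∧ PerB Tm Λ :=
    fun A b c h => hG A b c h.1 h.2.1 h.2.2.1 h.2.2.2
  choose! f hf using hex
  obtain ⟨K', hK'⟩ := hSUL α K (max (max A₀ A₁) 1) hα
  refine ⟨5 * α + |K'|, fun X hX => ?_⟩
  by_cases hX5 : X < 5
  · refine ⟨∅, by simp, ?_⟩
    rw [Finset.card_empty, Nat.cast_zero]
    have h1 : 0 ≤ |K'| := abs_nonneg _
    have h2 : 0 ≤ X ^ 2 := sq_nonneg _
    have h3 : α / 3 * X ^ 3 = α * X ^ 2 * (X / 3) := by ring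
    have h4 : α * X ^ 2 * (X / 3) ≤ α * X ^ 2 * 5 := mul_le_mul_of_nonneg_left (by linarith) (by positivity)
    have h5 : 0 ≤ |K'| * X ^ 2 := by positivity
    nlinarith
  · rw [not_lt] at hX5
    have hfl : 5 ≤ ⌊X⌋₊ := Nat.le_floor (by exact_mod_cast hX5)
    obtain ⟨M, hM⟩ : ∃ M : ℕ, ⌊X⌋₊ = M + 4 := ⟨⌊X⌋₊ - 4, by omega⟩
    have hM1 : 1 ≤ M := by omega
    have hfl1 := Nat.floor_le (by linarith : (0 : ℝ) ≤ X)
    have hfl2 := Nat.lt_floor_add_one X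
    rw [hM] at hfl1 hfl2
    push_cast at hfl1 hfl2
    have hgood : ∀ A : ℕ, max (max A₀ A₁) 1 ≤ A → ∀ z ∈ G A, ((A₀ : ℤ) ≤ (A : ℤ) ∧
        InW η ((z.1 : ℝ) / ((A : ℤ) : ℝ)) ((z.2 : ℝ) / ((A : ℤ) : ℝ)) ∧
        (∃ T : ℕ, T ≤ Tm ∧ Cell η T ((z.1 : ℝ) / ((A : ℤ) : ℝ)) ((z.2 : ℝ) / ((A : ℤ) : ℝ))) ∧
          NoInt (A : ℤ) z.1 z.2) := by
      intro A hA z hz
      have h1 := hGm A (by omega) (by omega) z hz
      refine ⟨by exact_mod_cast (by omega : A₀ ≤ A), ?_, ?_, h1.2⟩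
      · push_cast
        exact h1.1.1
      · push_cast
        exact h1.1.2
    let D : Finset (Σ _ : ℕ, ℤ × ℤ) := (Finset.Icc (max (max A₀ A₁) 1) M).sigma G
    have hD : ∀ d ∈ D, (max (max A₀ A₁) 1 ≤ d.1 ∧ d.1 ≤ M) ∧ d.2 ∈ G d.1 := by
      intro d hd
      rw [Finset.mem_sigma, Finset.mem_Icc] at hd
      exact hd
    refine ⟨D.image (fun d => f d.1 d.2.1 d.2.2), ?_, ?_⟩
    · intro β hβ
      rw [Finset.mem_image] at hβ
      obtain ⟨d, hd, rfl⟩ := hβ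
      obtain ⟨⟨h1, h2⟩, h3⟩ := hD d hd
      obtain ⟨h4, h5, h6, h7⟩ := hf _ _ _ (hgood d.1 h1 d.2 h3)
      refine ⟨⟨h4, ?_, ?_⟩, h7⟩
      · rw [h6]
        exact (hP6C _ _ _).2.1
      · have h8 : (d.1 : ℝ) ≤ M := by exact_mod_cast h2
        push_cast at h5
        linarith
    · rw [Finset.card_image_of_injOn, Finset.card_sigma, Nat.cast_sum]
      · refine le_trans (LW6_arith α K' X M hα hX5 (by linarith) (by linarith)) ?_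
        refine le_trans (hK' M hM1) ?_
        apply Finset.sum_le_sum
        intro A hA
        rw [Finset.mem_Icc] at hA
        exact hGc A (by omega) (by omega)
      · intro d hd d' hd' hdd
        obtain ⟨⟨h1, h2⟩, h3⟩ := hD d hd
        obtain ⟨⟨h1', h2'⟩, h3'⟩ := hD d' hd'
        have h4 := (hf _ _ _ (hgood d.1 h1 d.2 h3)).2.2.1
        have h4' := (hf _ _ _ (hgood d'.1 h1' d'.2 h3')).2.2.1
        simp only [] at hdd
        rw [hdd] at h4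
        obtain ⟨h5, h6, h7⟩ := LW6_inj hP6C _ _ _ _ _ _ (h4.symm.trans h4')
        obtain ⟨a, b, c⟩ := d
        obtain ⟨a', b', c'⟩ := d'
        simp only [Nat.cast_inj] at h5 h6 h7
        subst h5
        subst h6
        subst h7
        rfl

end Pool.Agent.S6D
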