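import Pool.Agent.helper75.S6D.Spec

/-!
# Row PAR of project s6
-/

set_option autoImplicit false

open Polynomial Finset

noncomputable section

namespace Pool.Agent.S6D

open Pool.Agent.PSA

theorem PAR_aux (N X₁ X₂ H₁ H₂ z y : ℝ) (hN : 0 < N) (h12 : X₁ < X₂) (hz1 : X₁ ≤ z) (hz2 : z ≤ X₂)
    (hy : N * y * (X₂ - X₁) ≤ H₁ * (X₂ - z) + H₂ * (z - X₁))
    (h1 : 16 * N * H₁ + (X₂ - X₁) ^ 2 + 16 * N ≤ 32 * N ^ 2 + 4 * X₁ ^ 2)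
    (h2 : 16 * N * H₂ + (X₂ - X₁) ^ 2 + 16 * N ≤ 32 * N ^ 2 + 4 * X₂ ^ 2) :
    16 * N * (N * y) ≤ 32 * N ^ 2 - 16 * N + 4 * z ^ 2 := by
  have hW : 0 < X₂ - X₁ := by linarith
  have ha : 0 ≤ z - X₁ := by linarith
  have hb : 0 ≤ X₂ - z := by linarith
  have e1 : 16 * N * H₁ * (X₂ - z) ≤ (32 * N ^ 2 + 4 * X₁ ^ 2 - (X₂ - X₁) ^ 2 - 16 * N) * (X₂ - z) :=
    mul_le_mul_of_nonneg_right (by linarith) hb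
  have e2 : 16 * N * H₂ * (z - X₁) ≤ (32 * N ^ 2 + 4 * X₂ ^ 2 - (X₂ - X₁) ^ 2 - 16 * N) * (z - X₁) :=
    mul_le_mul_of_nonneg_right (by linarith) ha
  have e3 : 16 * N * (N * y * (X₂ - X₁)) ≤ 16 * N * (H₁ * (X₂ - z) + H₂ * (z - X₁)) :=
    mul_le_mul_of_nonneg_left hy (by positivity)
  have e4 : 4 * ((z - X₁) * (X₂ - z)) ≤ (X₂ - X₁) ^ 2 := by
    nlinarith [sq_nonneg ((z - X₁) - (X₂ - z))]
  have e5 : (32 * N ^ 2 + 4 * X₁ ^ 2 - (X₂ - X₁) ^ 2 - 16 * N) * (X₂ - z) +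
      (32 * N ^ 2 + 4 * X₂ ^ 2 - (X₂ - X₁) ^ 2 - 16 * N) * (z - X₁) =
      (32 * N ^ 2 - 16 * N + 4 * z ^ 2 + (4 * ((z - X₁) * (X₂ - z)) - (X₂ - X₁) ^ 2)) * (X₂ - X₁) := by ring
  have e6 : (32 * N ^ 2 - 16 * N + 4 * z ^ 2 + (4 * ((z - X₁) * (X₂ - z)) - (X₂ - X₁) ^ 2)) * (X₂ - X₁) ≤
      (32 * N ^ 2 - 16 * N + 4 * z ^ 2) * (X₂ - X₁) :=
    mul_le_mul_of_nonneg_right (by linarith) hW.le
  have e7 : 16 * N * (N * y) * (X₂ - X₁) ≤ (32 * N ^ 2 - 16 * N + 4 * z ^ 2) * (X₂ - X₁) := by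
    linarith
  exact le_of_mul_le_mul_right e7 hW

theorem PAR : PAR_stmt := by
  intro p q x y hpq hT h1 h2
  obtain ⟨hx1, hx2, -, hy⟩ := hT
  have h1' : 16 * (65537 : ℝ) * (p.2.2 : ℝ) + ((q.1 : ℝ) - p.1) ^ 2 + 16 * 65537 ≤
      32 * 65537 ^ 2 + 4 * (p.1 : ℝ) ^ 2 := by exact_mod_cast h1
  have h2' : 16 * (65537 : ℝ) * (q.2.2 : ℝ) + ((q.1 : ℝ) - p.1) ^ 2 + 16 * 65537 ≤
      32 * 65537 ^ 2 + 4 * (q.1 : ℝ) ^ 2 := by exact_mod_cast h2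
  have hpq' : (p.1 : ℝ) < q.1 := by exact_mod_cast hpq
  have h3 := PAR_aux 65537 p.1 q.1 p.2.2 q.2.2 (65537 * x) y (by norm_num) hpq' hx1 hx2.le hy h1' h2'
  linarith

end Pool.Agent.S6D
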